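import Pool.Agent.helper8.GD.Spec

/-!
# Project GD, module F2: from the weight to the number of representations
-/

set_option autoImplicit false

namespace GD

open Finset ArithmeticFunction

theorem F2_Qs_prime {w : ℕ} {z : ℝ} {l : ℕ} (h : l ∈ Qs w z) : l.Prime ∧ 7 ≤ l := by
  unfold Qs at h
  rw [mem_filter, mem_Icc] at h
  obtain ⟨⟨h1, h2⟩, hp, hw, hl⟩ := h
  refine ⟨hp, ?_⟩
  by_contra hlt
  push Not at hlt
  have h3 : l = 1 := by omega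
  rw [h3] at hp
  exact Nat.not_prime_one hp

theorem F2_Qs_le {w : ℕ} {z : ℝ} {l : ℕ} (hz : 0 ≤ z) (h : l ∈ Qs w z) : (l : ℝ) ≤ z := by
  unfold Qs at h
  rw [mem_filter, mem_Icc] at h
  exact le_trans (Nat.cast_le.2 h.1.2) (Nat.floor_le hz)

theorem F2_vv_nonneg {υ T δ : ℝ} {X w l : ℕ} (hυ : 0 < υ) (hT : 0 ≤ T) (hX : 2 ≤ X)
    (hl : l ∈ Qs w ((X : ℝ) ^ υ)) : 0 ≤ vv υ T δ X l := by
  have hX' : (2 : ℝ) ≤ X := by exact_mod_cast hX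
  have hlog : 0 < Real.log X := Real.log_pos (by linarith)
  have h1 : (l : ℝ) ≤ (X : ℝ) ^ υ := F2_Qs_le (by positivity) hl
  have hl0 : (0 : ℝ) < l := by exact_mod_cast (F2_Qs_prime hl).1.pos
  have h2 : Real.log l ≤ υ * Real.log X := by
    have := Real.log_le_log hl0 h1
    rwa [Real.log_rpow (by linarith)] at this
  have h3 : Real.log l / (υ * Real.log X) ≤ 1 := (div_le_one (by positivity)).2 h2
  unfold vv
  split_ifs <;> linarith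

theorem F2_Vv_nonneg {υ T δ : ℝ} {X w n : ℕ} (hυ : 0 < υ) (hT : 0 ≤ T) (hX : 2 ≤ X) :
    0 ≤ Vv (vv υ T δ X) (At (Qs w ((X : ℝ) ^ υ)) n) := by
  unfold Vv
  refine sum_nonneg fun l hl => ?_
  unfold At at hl
  exact F2_vv_nonneg hυ hT hX (mem_filter.1 hl).1

theorem F2_At_card {w n : ℕ} {z : ℝ} (hn : 1 ≤ n) :
    #(At (Qs w z) n) ≤ (8 * n ^ 2 - 1).primeFactors.card := by
  refine card_le_card fun l hl => ?_
  unfold At at hl
  obtain ⟨hl1, hl2⟩ := mem_filter.1 hl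
  have h8 : 1 ≤ 8 * n ^ 2 := by nlinarith
  have h7 : 8 * n ^ 2 - 1 ≠ 0 := by
    have : 8 ≤ 8 * n ^ 2 := by nlinarith
    omega
  rw [Nat.mem_primeFactors]
  exact ⟨(F2_Qs_prime hl1).1, (Nat.modEq_iff_dvd' h8).1 hl2.symm, h7⟩

/-- proper prime powers (where the von Mangoldt function does not vanish) -/
noncomputable def F2_PP (X : ℕ) : Finset ℕ :=
  (Icc 1 X).filter fun n => vonMangoldt n ≠ 0 ∧ ¬ n.Prime

theorem F2_PP_card (X : ℕ) : #(F2_PP X) ≤ Nat.sqrt X * Nat.log 2 X := by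
  have hsub : F2_PP X ⊆ ((Icc 1 (Nat.sqrt X)) ×ˢ (Icc 1 (Nat.log 2 X))).image
      (fun p => p.1 ^ p.2) := by
    intro n hn
    unfold F2_PP at hn
    obtain ⟨h1, h2, h3⟩ := mem_filter.1 hn
    rw [mem_Icc] at h1
    rw [vonMangoldt_ne_zero_iff] at h2
    obtain ⟨p, k, hp, hk, rfl⟩ := (isPrimePow_nat_iff n).1 h2
    have hk2 : 2 ≤ k := by
      by_contra hlt
      push Not at hlt
      have : k = 1 := by omega
      subst this
      rw [pow_one] at h3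
      exact h3 hp
    rw [mem_image]
    refine ⟨(p, k), ?_, rfl⟩
    rw [mem_product, mem_Icc, mem_Icc]
    refine ⟨⟨hp.pos, ?_⟩, hk, ?_⟩
    · rw [Nat.le_sqrt']
      calc p ^ 2 ≤ p ^ k := Nat.pow_le_pow_right hp.pos hk2
        _ ≤ X := h1.2
    · have hX : X ≠ 0 := by
        have := h1.1
        have := h1.2
        omega
      refine Nat.le_log_of_pow_le (by norm_num) ?_
      calc 2 ^ k ≤ p ^ k := Nat.pow_le_pow_left hp.two_le k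
        _ ≤ X := h1.2
  calc #(F2_PP X) ≤ _ := card_le_card hsub
    _ ≤ #((Icc 1 (Nat.sqrt X)) ×ˢ (Icc 1 (Nat.log 2 X))) := card_image_le
    _ = _ := by simp

/-- the representations counted -/
noncomputable def F2_S (X C : ℕ) (δ : ℝ) (N : ℕ) : Finset ℕ :=
  (Ioo 0 N).filter fun m => vonMangoldt m ≠ 0 ∧ vonMangoldt (N - m) ≠ 0 ∧
    sh (wX X C) m = 1 ∧ sh (wX X C) (N - m) = 1 ∧
    Vv (vv υ₁ T₁ δ X) (At (Qs (wX X C) ((X : ℝ) ^ υ₁)) m) < T₁ ∧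
    Vv (vv υ₂ T₂ δ X) (At (Qs (wX X C) ((X : ℝ) ^ υ₂)) (N - m)) < T₂

theorem F2_T₁_pos : 0 < T₁ := by unfold T₁ υ₁; norm_num
theorem F2_T₂_pos : 0 < T₂ := by unfold T₂ υ₂; norm_num
theorem F2_υ₁_pos : 0 < υ₁ := by unfold υ₁; norm_num
theorem F2_υ₂_pos : 0 < υ₂ := by unfold υ₂; norm_num

theorem F2_sh_cases (w n : ℕ) : sh w n = 0 ∨ sh w n = 1 := by
  unfold sh
  split_ifs
  · right; rfl
  · left; rfl

theorem F2_a0_nonneg (X C : ℕ) (ρ υ : ℝ) (n : ℕ) : 0 ≤ a0 X C ρ υ n := by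
  unfold a0
  have h1 : 0 ≤ vonMangoldt n := vonMangoldt_nonneg
  have h2 : 0 ≤ sh (wX X C) n := by
    rcases F2_sh_cases (wX X C) n with h | h <;> rw [h] <;> norm_num
  positivity

theorem F2_a0_le (hSL5 : SL5_stmt) {X C n : ℕ} {ρ υ : ℝ} (hρ : 0 ≤ ρ) (hn1 : 1 ≤ n) (hnX : n ≤ X)
    (hcard : (8 * n ^ 2 - 1).primeFactors.card ≤ 10) :
    a0 X C ρ υ n ≤ Real.log X * (4 ^ 10 * Gs (Qs (wX X C) ((X : ℝ) ^ υ)) ((X : ℝ) ^ ρ) ^ 2) := by
  unfold a0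
  have hX1 : (1 : ℝ) ≤ X := by exact_mod_cast le_trans hn1 hnX
  have h1 : 0 ≤ vonMangoldt n := vonMangoldt_nonneg
  have h1' : vonMangoldt n ≤ Real.log X := by
    refine le_trans vonMangoldt_le_log ?_
    exact Real.log_le_log (by exact_mod_cast hn1) (by exact_mod_cast hnX)
  have h2 : 0 ≤ sh (wX X C) n := by
    rcases F2_sh_cases (wX X C) n with h | h <;> rw [h] <;> norm_num
  have h2' : sh (wX X C) n ≤ 1 := by
    rcases F2_sh_cases (wX X C) n with h | h <;> rw [h] <;> norm_num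
  have h3 := hSL5 (Qs (wX X C) ((X : ℝ) ^ υ)) ((X : ℝ) ^ ρ) (At (Qs (wX X C) ((X : ℝ) ^ υ)) n)
    (fun l hl => F2_Qs_prime hl) (Real.one_le_rpow hX1 hρ)
  set G := Gs (Qs (wX X C) ((X : ℝ) ^ υ)) ((X : ℝ) ^ ρ) with hG
  set s := Sg (Qs (wX X C) ((X : ℝ) ^ υ)) ((X : ℝ) ^ ρ) (At (Qs (wX X C) ((X : ℝ) ^ υ)) n) with hs
  set k := #(At (Qs (wX X C) ((X : ℝ) ^ υ)) n) with hk
  have hk10 : k ≤ 10 := le_trans (F2_At_card hn1) hcard
  have hpow : (2 : ℝ) ^ k ≤ 2 ^ 10 := pow_le_pow_right₀ (by norm_num) hk10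
  have hG0 : 0 ≤ G := by
    have : 0 ≤ (2 : ℝ) ^ k * G := le_trans (abs_nonneg _) h3
    have h2k : (0 : ℝ) < 2 ^ k := by positivity
    exact nonneg_of_mul_nonneg_right this h2k
  have h4 : |s| ≤ 2 ^ 10 * G := le_trans h3 (mul_le_mul_of_nonneg_right hpow hG0)
  have h5 : s ^ 2 ≤ 4 ^ 10 * G ^ 2 := by
    rw [← sq_abs]
    calc |s| ^ 2 ≤ (2 ^ 10 * G) ^ 2 := pow_le_pow_left₀ (abs_nonneg _) h4 2
      _ = 4 ^ 10 * G ^ 2 := by ring
  calc vonMangoldt n * sh (wX X C) n * s ^ 2 ≤ Real.log X * 1 * (4 ^ 10 * G ^ 2) := by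
        gcongr
    _ = _ := by ring

theorem F2_WW_eq (X C : ℕ) (δ : ℝ) (N : ℕ) : WW X C δ N = ∑ m ∈ Ioo 0 N,
    a0 X C ρ₁ υ₁ m * a0 X C ρ₂ υ₂ (N - m) *
      (1 - (1 / T₁) * Vv (vv υ₁ T₁ δ X) (At (Qs (wX X C) ((X : ℝ) ^ υ₁)) m)
        - (1 / T₂) * Vv (vv υ₂ T₂ δ X) (At (Qs (wX X C) ((X : ℝ) ^ υ₂)) (N - m))) := by
  unfold WW cv a1
  rw [mul_sum, mul_sum, ← sum_sub_distrib, ← sum_sub_distrib]
  refine sum_congr rfl fun m _ => ?_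
  ring

theorem F2_WW_le (hPW : PW_stmt) (hSL5 : SL5_stmt) (δ : ℝ) (hδ : 0 < δ) (hδ' : δ ≤ 1 / 5) :
    ∃ X₀ : ℕ, ∀ X : ℕ, X₀ ≤ X → ∀ C N : ℕ, N ≤ X →
    WW X C δ N ≤ (#(F2_S X C δ N) : ℝ) *
      (Real.log X ^ 2 * (4 ^ 20 * G1 X C ^ 2 * G2 X C ^ 2)) ∧
    ∀ m ∈ F2_S X C δ N, m ∉ F2_PP X → N - m ∉ F2_PP X → m ∉ NSq X δ → N - m ∉ NSq X δ →
      Good ((N : ℝ) ^ δ) m ∧ Good ((N : ℝ) ^ δ) (N - m) := by
  obtain ⟨X₁, hX₁⟩ := hPW υ₁ T₁ δ F2_υ₁_pos F2_T₁_pos hδ (by unfold υ₁; linarith)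
    (by unfold T₁ υ₁; norm_num)
  obtain ⟨X₂, hX₂⟩ := hPW υ₂ T₂ δ F2_υ₂_pos F2_T₂_pos hδ (by unfold υ₂; linarith)
    (by unfold T₂ υ₂; norm_num)
  refine ⟨X₁ + X₂ + 2, fun X hX C N hNX => ?_⟩
  have hX2 : 2 ≤ X := by omega
  have hXr : (2 : ℝ) ≤ X := by exact_mod_cast hX2
  -- facts for the elements of S
  have hS : ∀ m ∈ F2_S X C δ N, (1 ≤ m ∧ m ≤ X ∧ 1 ≤ N - m ∧ N - m ≤ X) ∧
      ((∀ l : ℕ, l.Prime → l ∣ 8 * m ^ 2 - 1 → (X : ℝ) ^ δ < l) ∧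
        (8 * m ^ 2 - 1).primeFactors.card ≤ 10) ∧
      ((∀ l : ℕ, l.Prime → l ∣ 8 * (N - m) ^ 2 - 1 → (X : ℝ) ^ δ < l) ∧
        (8 * (N - m) ^ 2 - 1).primeFactors.card ≤ 10) := by
    intro m hm
    unfold F2_S at hm
    obtain ⟨h1, h2, h3, h4, h5, h6, h7⟩ := mem_filter.1 hm
    rw [mem_Ioo] at h1
    have hm1 : 1 ≤ m ∧ m ≤ X ∧ 1 ≤ N - m ∧ N - m ≤ X := by omega
    refine ⟨hm1, ?_, ?_⟩
    · exact hX₁ X (by omega) (wX X C) m (mem_Icc.2 ⟨hm1.1, hm1.2.1⟩) h4 h6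
    · exact hX₂ X (by omega) (wX X C) (N - m) (mem_Icc.2 ⟨hm1.2.2.1, hm1.2.2.2⟩) h5 h7
  constructor
  · rw [F2_WW_eq]
    have hsub : F2_S X C δ N ⊆ Ioo 0 N := by
      unfold F2_S
      exact filter_subset _ _
    rw [← sum_sdiff hsub]
    have hneg : ∑ m ∈ Ioo 0 N \ F2_S X C δ N, a0 X C ρ₁ υ₁ m * a0 X C ρ₂ υ₂ (N - m) *
      (1 - (1 / T₁) * Vv (vv υ₁ T₁ δ X) (At (Qs (wX X C) ((X : ℝ) ^ υ₁)) m)
        - (1 / T₂) * Vv (vv υ₂ T₂ δ X) (At (Qs (wX X C) ((X : ℝ) ^ υ₂)) (N - m))) ≤ 0 := by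
      refine sum_nonpos fun m hm => ?_
      rw [mem_sdiff] at hm
      have hnn : 0 ≤ a0 X C ρ₁ υ₁ m * a0 X C ρ₂ υ₂ (N - m) :=
        mul_nonneg (F2_a0_nonneg _ _ _ _ _) (F2_a0_nonneg _ _ _ _ _)
      by_cases hz : a0 X C ρ₁ υ₁ m * a0 X C ρ₂ υ₂ (N - m) = 0
      · rw [hz, zero_mul]
      · refine mul_nonpos_of_nonneg_of_nonpos hnn ?_
        have hz1 : a0 X C ρ₁ υ₁ m ≠ 0 := left_ne_zero_of_mul hz
        have hz2 : a0 X C ρ₂ υ₂ (N - m) ≠ 0 := right_ne_zero_of_mul hz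
        have hΛ1 : vonMangoldt m ≠ 0 := by
          intro h
          apply hz1
          unfold a0
          rw [h, zero_mul, zero_mul]
        have hΛ2 : vonMangoldt (N - m) ≠ 0 := by
          intro h
          apply hz2
          unfold a0
          rw [h, zero_mul, zero_mul]
        have hsh1 : sh (wX X C) m = 1 := by
          rcases F2_sh_cases (wX X C) m with h | h
          · exfalso
            apply hz1
            unfold a0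
            rw [h, mul_zero, zero_mul]
          · exact h
        have hsh2 : sh (wX X C) (N - m) = 1 := by
          rcases F2_sh_cases (wX X C) (N - m) with h | h
          · exfalso
            apply hz2
            unfold a0
            rw [h, mul_zero, zero_mul]
          · exact h
        have hV1 : 0 ≤ Vv (vv υ₁ T₁ δ X) (At (Qs (wX X C) ((X : ℝ) ^ υ₁)) m) :=
          F2_Vv_nonneg F2_υ₁_pos F2_T₁_pos.le hX2
        have hV2 : 0 ≤ Vv (vv υ₂ T₂ δ X) (At (Qs (wX X C) ((X : ℝ) ^ υ₂)) (N - m)) :=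
          F2_Vv_nonneg F2_υ₂_pos F2_T₂_pos.le hX2
        have hnot : ¬ (Vv (vv υ₁ T₁ δ X) (At (Qs (wX X C) ((X : ℝ) ^ υ₁)) m) < T₁ ∧
            Vv (vv υ₂ T₂ δ X) (At (Qs (wX X C) ((X : ℝ) ^ υ₂)) (N - m)) < T₂) := by
          intro h
          apply hm.2
          unfold F2_S
          rw [mem_filter]
          exact ⟨hm.1, hΛ1, hΛ2, hsh1, hsh2, h.1, h.2⟩
        have hT1 := F2_T₁_pos
        have hT2 := F2_T₂_pos
        have hq1 : 0 ≤ (1 / T₁) * Vv (vv υ₁ T₁ δ X) (At (Qs (wX X C) ((X : ℝ) ^ υ₁)) m) := by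
          positivity
        have hq2 : 0 ≤ (1 / T₂) *
            Vv (vv υ₂ T₂ δ X) (At (Qs (wX X C) ((X : ℝ) ^ υ₂)) (N - m)) := by
          positivity
        rw [not_and_or, not_lt, not_lt] at hnot
        rcases hnot with h | h
        · have : 1 ≤ (1 / T₁) * Vv (vv υ₁ T₁ δ X) (At (Qs (wX X C) ((X : ℝ) ^ υ₁)) m) := by
            rw [one_div, ← div_eq_inv_mul, le_div_iff₀ hT1]
            linarith
          linarith
        · have : 1 ≤ (1 / T₂) *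
              Vv (vv υ₂ T₂ δ X) (At (Qs (wX X C) ((X : ℝ) ^ υ₂)) (N - m)) := by
            rw [one_div, ← div_eq_inv_mul, le_div_iff₀ hT2]
            linarith
          linarith
    have hpos : ∑ m ∈ F2_S X C δ N, a0 X C ρ₁ υ₁ m * a0 X C ρ₂ υ₂ (N - m) *
      (1 - (1 / T₁) * Vv (vv υ₁ T₁ δ X) (At (Qs (wX X C) ((X : ℝ) ^ υ₁)) m)
        - (1 / T₂) * Vv (vv υ₂ T₂ δ X) (At (Qs (wX X C) ((X : ℝ) ^ υ₂)) (N - m))) ≤
        (#(F2_S X C δ N) : ℝ) * (Real.log X ^ 2 * (4 ^ 20 * G1 X C ^ 2 * G2 X C ^ 2)) := by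
      rw [← nsmul_eq_mul]
      refine sum_le_card_nsmul _ _ _ fun m hm => ?_
      obtain ⟨⟨hm1, hmX, hn1, hnX⟩, ⟨-, hc1⟩, ⟨-, hc2⟩⟩ := hS m hm
      have hb1 := F2_a0_le hSL5 (C := C) (ρ := ρ₁) (υ := υ₁) (by unfold ρ₁; norm_num) hm1 hmX hc1
      have hb2 := F2_a0_le hSL5 (C := C) (ρ := ρ₂) (υ := υ₂) (by unfold ρ₂; norm_num) hn1 hnX hc2
      have hV1 : 0 ≤ Vv (vv υ₁ T₁ δ X) (At (Qs (wX X C) ((X : ℝ) ^ υ₁)) m) :=
        F2_Vv_nonneg F2_υ₁_pos F2_T₁_pos.le hX2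
      have hV2 : 0 ≤ Vv (vv υ₂ T₂ δ X) (At (Qs (wX X C) ((X : ℝ) ^ υ₂)) (N - m)) :=
        F2_Vv_nonneg F2_υ₂_pos F2_T₂_pos.le hX2
      have hT1 := F2_T₁_pos
      have hT2 := F2_T₂_pos
      have hq1 : 0 ≤ (1 / T₁) * Vv (vv υ₁ T₁ δ X) (At (Qs (wX X C) ((X : ℝ) ^ υ₁)) m) := by
        positivity
      have hq2 : 0 ≤ (1 / T₂) *
          Vv (vv υ₂ T₂ δ X) (At (Qs (wX X C) ((X : ℝ) ^ υ₂)) (N - m)) := by
        positivity
      have hnn : 0 ≤ a0 X C ρ₁ υ₁ m * a0 X C ρ₂ υ₂ (N - m) :=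
        mul_nonneg (F2_a0_nonneg _ _ _ _ _) (F2_a0_nonneg _ _ _ _ _)
      have hG1 : Gs (Qs (wX X C) ((X : ℝ) ^ υ₁)) ((X : ℝ) ^ ρ₁) = G1 X C := rfl
      have hG2 : Gs (Qs (wX X C) ((X : ℝ) ^ υ₂)) ((X : ℝ) ^ ρ₂) = G2 X C := rfl
      rw [hG1] at hb1
      rw [hG2] at hb2
      have hlog : 0 ≤ Real.log X := Real.log_nonneg (by linarith)
      calc a0 X C ρ₁ υ₁ m * a0 X C ρ₂ υ₂ (N - m) * _
          ≤ a0 X C ρ₁ υ₁ m * a0 X C ρ₂ υ₂ (N - m) * 1 := by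
            refine mul_le_mul_of_nonneg_left ?_ hnn
            linarith
        _ = a0 X C ρ₁ υ₁ m * a0 X C ρ₂ υ₂ (N - m) := mul_one _
        _ ≤ (Real.log X * (4 ^ 10 * G1 X C ^ 2)) * (Real.log X * (4 ^ 10 * G2 X C ^ 2)) :=
            mul_le_mul hb1 hb2 (F2_a0_nonneg _ _ _ _ _) (by positivity)
        _ = _ := by ring
    linarith
  · intro m hm hp1 hp2 hs1 hs2
    obtain ⟨⟨hm1, hmX, hn1, hnX⟩, ⟨hl1, hc1⟩, ⟨hl2, hc2⟩⟩ := hS m hm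
    have hm' := hm
    unfold F2_S at hm'
    obtain ⟨-, hΛ1, hΛ2, -⟩ := mem_filter.1 hm'
    have hmain : ∀ n : ℕ, 1 ≤ n → n ≤ X → vonMangoldt n ≠ 0 → n ∉ F2_PP X → n ∉ NSq X δ →
        (∀ l : ℕ, l.Prime → l ∣ 8 * n ^ 2 - 1 → (X : ℝ) ^ δ < l) →
        (8 * n ^ 2 - 1).primeFactors.card ≤ 10 → Good ((N : ℝ) ^ δ) n := by
      intro n hn1 hnX hΛ hpp hsq hl hc
      have hnp : n.Prime := by
        by_contra hnp
        apply hpp
        unfold F2_PP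
        rw [mem_filter, mem_Icc]
        exact ⟨⟨hn1, hnX⟩, hΛ, hnp⟩
      have h7 : 8 * n ^ 2 - 1 ≠ 0 := by
        have : 8 ≤ 8 * n ^ 2 := by nlinarith
        omega
      have hsf : Squarefree (8 * n ^ 2 - 1) := by
        rw [Nat.squarefree_iff_prime_squarefree]
        intro l hlp hdvd
        apply hsq
        unfold NSq
        refine (@mem_filter _ _ (Classical.decPred _) _ _).2
          ⟨mem_Icc.2 ⟨hn1, hnX⟩, l, hlp, hl l hlp (dvd_trans (dvd_mul_right l l) hdvd), ?_⟩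
        rw [sq]
        exact hdvd
      refine ⟨hnp, ?_, ?_⟩
      · have h1 : cardDistinctFactors (8 * n ^ 2 - 1) = cardFactors (8 * n ^ 2 - 1) :=
          (cardDistinctFactors_eq_cardFactors_iff_squarefree h7).2 hsf
        rw [← h1, cardDistinctFactors_apply]
        rw [← List.card_toFinset]
        exact hc
      · intro l hlp hdvd
        refine lt_of_le_of_lt ?_ (hl l hlp hdvd)
        exact Real.rpow_le_rpow (by positivity) (by exact_mod_cast hNX) hδ.le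
    exact ⟨hmain m hm1 hmX hΛ1 hp1 hs1 hl1 hc1, hmain (N - m) hn1 hnX hΛ2 hp2 hs2 hl2 hc2⟩

theorem F2_card (hPW : PW_stmt) (hSL5 : SL5_stmt) (δ : ℝ) (hδ : 0 < δ) (hδ' : δ ≤ 1 / 5) :
    ∃ X₀ : ℕ, ∀ X : ℕ, X₀ ≤ X → ∀ C N : ℕ, N ≤ X →
    WW X C δ N ≤ (((Reps ((N : ℝ) ^ δ) N).ncard : ℝ) + 2 * #(F2_PP X) + 2 * #(NSq X δ)) *
      (Real.log X ^ 2 * (4 ^ 20 * G1 X C ^ 2 * G2 X C ^ 2)) := by
  obtain ⟨X₀, hX₀⟩ := F2_WW_le hPW hSL5 δ hδ hδ'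
  refine ⟨X₀, fun X hX C N hNX => ?_⟩
  obtain ⟨h1, h2⟩ := hX₀ X hX C N hNX
  have hfin : (Reps ((N : ℝ) ^ δ) N).Finite := by
    refine (Set.finite_Iic N).subset fun p hp => hp.1
  have hsub : F2_S X C δ N ⊆ hfin.toFinset ∪ (F2_PP X ∪ (F2_PP X).image (fun n => N - n)) ∪
      (NSq X δ ∪ (NSq X δ).image (fun n => N - n)) := by
    intro m hm
    have hm0 : m ∈ Ioo 0 N := by
      unfold F2_S at hm
      exact (mem_filter.1 hm).1
    rw [mem_Ioo] at hm0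
    have hmm : N - (N - m) = m := by omega
    rw [mem_union, mem_union, mem_union, mem_union]
    by_cases hp1 : m ∈ F2_PP X
    · left; right; left; exact hp1
    by_cases hp2 : N - m ∈ F2_PP X
    · left; right; right
      exact mem_image.2 ⟨N - m, hp2, hmm⟩
    by_cases hs1 : m ∈ NSq X δ
    · right; left; exact hs1
    by_cases hs2 : N - m ∈ NSq X δ
    · right; right
      exact mem_image.2 ⟨N - m, hs2, hmm⟩
    left; left
    rw [Set.Finite.mem_toFinset]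
    have := h2 m hm hp1 hp2 hs1 hs2
    exact ⟨hm0.2.le, this.1, this.2⟩
  have hc : #(F2_S X C δ N) ≤ (Reps ((N : ℝ) ^ δ) N).ncard + 2 * #(F2_PP X) + 2 * #(NSq X δ) := by
    calc #(F2_S X C δ N) ≤ _ := card_le_card hsub
      _ ≤ #(hfin.toFinset ∪ (F2_PP X ∪ (F2_PP X).image (fun n => N - n))) +
          #(NSq X δ ∪ (NSq X δ).image (fun n => N - n)) := card_union_le _ _
      _ ≤ (#(hfin.toFinset) + #(F2_PP X ∪ (F2_PP X).image (fun n => N - n))) +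
          (#(NSq X δ) + #((NSq X δ).image (fun n => N - n))) :=
          Nat.add_le_add (card_union_le _ _) (card_union_le _ _)
      _ ≤ (#(hfin.toFinset) + (#(F2_PP X) + #((F2_PP X).image (fun n => N - n)))) +
          (#(NSq X δ) + #((NSq X δ).image (fun n => N - n))) := by
          gcongr
          exact card_union_le _ _
      _ ≤ (#(hfin.toFinset) + (#(F2_PP X) + #(F2_PP X))) + (#(NSq X δ) + #(NSq X δ)) :=
          Nat.add_le_add (Nat.add_le_add_left (Nat.add_le_add_left card_image_le _) _)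
            (Nat.add_le_add_left card_image_le _)
      _ = _ := by
          rw [Set.ncard_eq_toFinset_card _ hfin]
          ring
  have hG : 0 ≤ Real.log X ^ 2 * (4 ^ 20 * G1 X C ^ 2 * G2 X C ^ 2) := by positivity
  refine le_trans h1 (mul_le_mul_of_nonneg_right ?_ hG)
  exact_mod_cast hc

/-- a power of the logarithm against a power -/
theorem F2_log_pow (k : ℕ) (a κ : ℝ) (ha : 0 < a) (hκ : 0 < κ) :
    ∃ X₀ : ℕ, ∀ X : ℕ, X₀ ≤ X → Real.log X ^ k ≤ κ * (X : ℝ) ^ a := by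
  have h := isLittleO_log_rpow_rpow_atTop (k : ℝ) ha
  have h1 := h.bound hκ
  have h2 := (tendsto_natCast_atTop_atTop (R := ℝ)).eventually h1
  obtain ⟨X₀, hX₀⟩ := Filter.eventually_atTop.1 h2
  refine ⟨X₀ + 1, fun X hX => ?_⟩
  have h3 := hX₀ X (by omega)
  have hX1 : (1 : ℝ) ≤ X := by exact_mod_cast (by omega : 1 ≤ X)
  rw [Real.rpow_natCast, Real.norm_of_nonneg (pow_nonneg (Real.log_nonneg hX1) k),
    Real.norm_of_nonneg (by positivity)] at h3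
  exact h3

/-- **F2** -/
theorem F2 (hPW : PW_stmt) (hSL5 : SL5_stmt) (hSQ : SQ_stmt) (hG3 : G3_stmt) : F2_stmt := by
  intro c δ hc hδ hδ'
  obtain ⟨C₃, hC₃, hG3'⟩ := hG3
  obtain ⟨X₁, hX₁⟩ := F2_card hPW hSL5 δ hδ hδ'
  obtain ⟨c₂, hc₂, X₂, hX₂⟩ := hSQ δ hδ
  have hK : 0 < c / (2 * 4 ^ 20 * C₃ ^ 2) := by positivity
  obtain ⟨K, hKdef⟩ : ∃ K : ℝ, K = c / (2 * 4 ^ 20 * C₃ ^ 2) := ⟨_, rfl⟩
  rw [← hKdef] at hK
  obtain ⟨X₃, hX₃⟩ := F2_log_pow 4 c₂ (K / 4) hc₂ (by positivity)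
  obtain ⟨X₄, hX₄⟩ := F2_log_pow 5 (1 / 2) (K / 8) (by norm_num) (by positivity)
  refine ⟨K / 16, by positivity, fun C hC => ?_⟩
  obtain ⟨X₅, hX₅⟩ := F2_log_pow C (1 / 5) 1 (by norm_num) (by norm_num)
  refine ⟨X₁ + X₂ + X₃ + X₄ + X₅ + 100, fun X hX N hNX hXN hW => ?_⟩
  have hXr : (100 : ℝ) ≤ X := by exact_mod_cast (by omega : 100 ≤ X)
  have hlog3 : 2 ≤ Real.log X := by
    have h1 : Real.exp 2 ≤ 100 := by
      have h := Real.exp_one_lt_d9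
      have h0 := Real.exp_pos 1
      have : Real.exp 2 = Real.exp 1 * Real.exp 1 := by rw [← Real.exp_add]; norm_num
      rw [this]
      nlinarith
    rw [Real.le_log_iff_exp_le (by linarith)]
    linarith
  obtain ⟨L, hL⟩ : ∃ L : ℝ, L = Real.log X := ⟨_, rfl⟩
  rw [← hL] at hlog3
  have hL0 : 0 < L := by linarith
  -- w
  obtain ⟨w, hw⟩ : ∃ w : ℕ, w = wX X C := ⟨_, rfl⟩
  have hw2 : 2 ≤ w := by
    rw [hw]
    unfold wX
    rw [← hL]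
    refine Nat.le_floor ?_
    calc ((2 : ℕ) : ℝ) ≤ L := by exact_mod_cast hlog3
      _ = L ^ 1 := (pow_one L).symm
      _ ≤ L ^ C := pow_le_pow_right₀ (by linarith) hC
  have hwX : ∀ υ : ℝ, 1 / 5 ≤ υ → (w : ℝ) ≤ (X : ℝ) ^ υ := by
    intro υ hυ
    rw [hw]
    unfold wX
    calc ((⌊Real.log X ^ C⌋₊ : ℕ) : ℝ) ≤ Real.log X ^ C :=
          Nat.floor_le (pow_nonneg (by rw [← hL]; linarith) C)
      _ ≤ 1 * (X : ℝ) ^ (1 / 5 : ℝ) := hX₅ X (by omega)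
      _ = (X : ℝ) ^ (1 / 5 : ℝ) := one_mul _
      _ ≤ (X : ℝ) ^ υ := Real.rpow_le_rpow_of_exponent_le (by linarith) hυ
  have hlogw : 0 < Real.log w := Real.log_pos (by exact_mod_cast (by omega : 1 < w))
  -- G bounds
  have hG : ∀ υ ρ : ℝ, 1 / 5 ≤ υ → υ ≤ 1 → 0 ≤ ρ →
      1 ≤ Gs (Qs w ((X : ℝ) ^ υ)) ((X : ℝ) ^ ρ) ∧
      Gs (Qs w ((X : ℝ) ^ υ)) ((X : ℝ) ^ ρ) ≤ C₃ * L / Real.log w := by
    intro υ ρ hυ hυ1 hρ
    obtain ⟨h1, h2⟩ := hG3' w ((X : ℝ) ^ υ) ((X : ℝ) ^ ρ) hw2 (hwX υ hυ)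
      (Real.one_le_rpow (by linarith) hρ)
    refine ⟨h1, le_trans h2 ?_⟩
    rw [Real.log_rpow (by linarith), ← hL]
    gcongr
    nlinarith
  have hG1 : 1 ≤ G1 X C ∧ G1 X C ≤ C₃ * L / Real.log w := by
    have := hG υ₁ ρ₁ (by unfold υ₁; norm_num) (by unfold υ₁; norm_num) (by unfold ρ₁; norm_num)
    rw [hw] at this ⊢
    exact this
  have hG2 : 1 ≤ G2 X C ∧ G2 X C ≤ C₃ * L / Real.log w := by
    have := hG υ₂ ρ₂ (by unfold υ₂; norm_num) (by unfold υ₂; norm_num) (by unfold ρ₂; norm_num)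
    rw [hw] at this ⊢
    exact this
  obtain ⟨g1, hg1⟩ : ∃ g : ℝ, g = G1 X C := ⟨_, rfl⟩
  obtain ⟨g2, hg2⟩ : ∃ g : ℝ, g = G2 X C := ⟨_, rfl⟩
  have hcard := hX₁ X (by omega) C N hNX
  obtain ⟨R, hR⟩ : ∃ R : ℝ, R = ((Reps ((N : ℝ) ^ δ) N).ncard : ℝ) := ⟨_, rfl⟩
  rw [← hg1] at hG1 hcard hW
  rw [← hg2] at hG2 hcard hW
  rw [← hR, ← hL] at hcard
  rw [← hR]
  rw [← hw] at hW
  obtain ⟨lw, hlw⟩ : ∃ lw : ℝ, lw = Real.log w := ⟨_, rfl⟩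
  rw [← hlw] at hlogw hG1 hG2 hW
  -- (1)  c X / (4^20 C₃² L⁴) ≤ R + 2 PP + 2 NSq
  have hmain : 2 * K * X / L ^ 4 ≤ R + 2 * #(F2_PP X) + 2 * #(NSq X δ) := by
    obtain ⟨E, hE⟩ : ∃ E : ℝ, E = R + 2 * #(F2_PP X) + 2 * #(NSq X δ) := ⟨_, rfl⟩
    rw [← hE] at hcard ⊢
    have hg1p : 0 < g1 := by linarith [hG1.1]
    have hg2p : 0 < g2 := by linarith [hG2.1]
    have h1 : c * X / lw ^ 2 * g1 * g2 ≤ E * (L ^ 2 * (4 ^ 20 * g1 ^ 2 * g2 ^ 2)) :=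
      le_trans hW hcard
    have h2 : c * X / lw ^ 2 ≤ E * (L ^ 2 * 4 ^ 20) * (g1 * g2) := by
      have h3 : (c * X / lw ^ 2) * (g1 * g2) ≤ (E * (L ^ 2 * 4 ^ 20) * (g1 * g2)) * (g1 * g2) := by
        calc (c * X / lw ^ 2) * (g1 * g2) = c * X / lw ^ 2 * g1 * g2 := by ring
          _ ≤ E * (L ^ 2 * (4 ^ 20 * g1 ^ 2 * g2 ^ 2)) := h1
          _ = _ := by ring
      exact le_of_mul_le_mul_right h3 (by positivity)
    have hE0 : 0 ≤ E := by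
      rw [hE, hR]
      positivity
    have h4 : g1 * g2 ≤ (C₃ * L / lw) * (C₃ * L / lw) :=
      mul_le_mul hG1.2 hG2.2 hg2p.le (by positivity)
    have h5 : c * X / lw ^ 2 ≤ E * (L ^ 2 * 4 ^ 20) * ((C₃ * L / lw) * (C₃ * L / lw)) :=
      le_trans h2 (mul_le_mul_of_nonneg_left h4 (by positivity))
    have h6 : c * X ≤ E * (4 ^ 20 * C₃ ^ 2 * L ^ 4) := by
      have h7 : c * X / lw ^ 2 * lw ^ 2 ≤
          E * (L ^ 2 * 4 ^ 20) * ((C₃ * L / lw) * (C₃ * L / lw)) * lw ^ 2 :=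
        mul_le_mul_of_nonneg_right h5 (by positivity)
      calc c * X = c * X / lw ^ 2 * lw ^ 2 := by field_simp
        _ ≤ _ := h7
        _ = E * (4 ^ 20 * C₃ ^ 2 * L ^ 4) := by field_simp
    rw [hKdef, div_le_iff₀ (by positivity)]
    have h8 : 2 * (c / (2 * 4 ^ 20 * C₃ ^ 2)) * X = c * X / (4 ^ 20 * C₃ ^ 2) := by
      field_simp
    rw [h8, div_le_iff₀ (by positivity)]
    calc c * X ≤ E * (4 ^ 20 * C₃ ^ 2 * L ^ 4) := h6
      _ = _ := by ring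
  -- (2) the small sets
  have hL4 : 0 < L ^ 4 := by positivity
  have hsq : 2 * (#(NSq X δ) : ℝ) ≤ (K / 2) * X / L ^ 4 := by
    have h1 := hX₂ X (by omega)
    have h2 := hX₃ X (by omega)
    rw [← hL] at h2
    rw [le_div_iff₀ hL4]
    have hXc : (X : ℝ) ^ (1 - c₂) * (X : ℝ) ^ c₂ = X := by
      rw [← Real.rpow_add (by linarith)]
      simp
    calc 2 * (#(NSq X δ) : ℝ) * L ^ 4 ≤ 2 * (X : ℝ) ^ (1 - c₂) * (K / 4 * (X : ℝ) ^ c₂) := by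
          gcongr
      _ = (K / 2) * ((X : ℝ) ^ (1 - c₂) * (X : ℝ) ^ c₂) := by ring
      _ = (K / 2) * X := by rw [hXc]
  have hpp : 2 * (#(F2_PP X) : ℝ) ≤ (K / 2) * X / L ^ 4 := by
    have h1 : (#(F2_PP X) : ℝ) ≤ (Nat.sqrt X : ℝ) * (Nat.log 2 X : ℝ) := by
      exact_mod_cast F2_PP_card X
    have h2 : (Nat.sqrt X : ℝ) ≤ (X : ℝ) ^ (1 / 2 : ℝ) := by
      rw [← Real.sqrt_eq_rpow]
      exact Real.nat_sqrt_le_real_sqrt
    have h3 : (Nat.log 2 X : ℝ) ≤ 2 * L := by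
      have h4 : (Nat.log 2 X : ℝ) ≤ Real.logb 2 X := by
        rw [Real.le_logb_iff_rpow_le (by norm_num) (by linarith), Real.rpow_natCast]
        exact_mod_cast Nat.pow_log_le_self 2 (by omega)
      refine le_trans h4 ?_
      unfold Real.logb
      rw [← hL, div_le_iff₀ (Real.log_pos (by norm_num))]
      have := Real.log_two_gt_d9
      nlinarith
    have h5 := hX₄ X (by omega)
    rw [← hL] at h5
    rw [le_div_iff₀ hL4]
    have hXc : (X : ℝ) ^ (1 / 2 : ℝ) * (X : ℝ) ^ (1 / 2 : ℝ) = X := by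
      rw [← Real.rpow_add (by linarith)]
      norm_num
    calc 2 * (#(F2_PP X) : ℝ) * L ^ 4 ≤ 2 * ((X : ℝ) ^ (1 / 2 : ℝ) * (2 * L)) * L ^ 4 := by
          gcongr
          exact le_trans h1 (mul_le_mul h2 h3 (by positivity) (by positivity))
      _ = 4 * (X : ℝ) ^ (1 / 2 : ℝ) * L ^ 5 := by ring
      _ ≤ 4 * (X : ℝ) ^ (1 / 2 : ℝ) * (K / 8 * (X : ℝ) ^ (1 / 2 : ℝ)) := by gcongr
      _ = (K / 2) * ((X : ℝ) ^ (1 / 2 : ℝ) * (X : ℝ) ^ (1 / 2 : ℝ)) := by ring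
      _ = (K / 2) * X := by rw [hXc]
  -- (3) conclusion
  have hN2 : (X : ℝ) / 2 ≤ N := by
    have : (X : ℝ) ≤ 2 * N := by exact_mod_cast hXN
    linarith
  have hlogN : L / 2 ≤ Real.log N := by
    have h1 : (X : ℝ) ^ (1 / 2 : ℝ) ≤ N := by
      refine le_trans ?_ hN2
      rw [← Real.sqrt_eq_rpow, Real.sqrt_le_left (by linarith)]
      nlinarith
    have h2 := Real.log_le_log (Real.rpow_pos_of_pos (by linarith) _) h1
    rw [Real.log_rpow (by linarith), ← hL] at h2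
    linarith
  have hNX' : (N : ℝ) ≤ X := by exact_mod_cast hNX
  have hfin : K / 16 * N / Real.log N ^ 4 ≤ K * X / L ^ 4 := by
    have h1 : (L / 2) ^ 4 ≤ Real.log N ^ 4 := pow_le_pow_left₀ (by positivity) hlogN 4
    calc K / 16 * N / Real.log N ^ 4 ≤ K / 16 * X / (L / 2) ^ 4 := by
          gcongr
      _ = K * X / L ^ 4 := by
          field_simp
          ring
  have hsplit : 2 * K * X / L ^ 4 = K * X / L ^ 4 + (K / 2) * X / L ^ 4 + (K / 2) * X / L ^ 4 := by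
    ring
  linarith

end GD
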